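import Mathlib

namespace Pool.Agent.Results.MP_071e18_gt.Counter

open MeasureTheory EuclideanGeometry
open scoped ENNReal

/-- The Euclidean plane. -/
abbrev E := EuclideanSpace ℝ (Fin 2)

/-- `K` is congruent to `T`: the image of `T` under an isometry of the plane. -/
def Cong (T K : Set E) : Prop := ∃ g : E → E, Isometry g ∧ K = g '' T

/-- `K` and `K'` overlap: their interiors meet and `K ≠ K'`. -/
def Overlap (K K' : Set E) : Prop := (interior K ∩ interior K').Nonempty ∧ K ≠ K'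

/-- `R(K,K') = length(∂K ∩ K') / length(∂K' ∩ K)`, length being 1-dimensional Hausdorff measure. -/
noncomputable def R (K K' : Set E) : ℝ≥0∞ :=
  μH[1] (frontier K ∩ K') / μH[1] (frontier K' ∩ K)

/-- `M(T)`: the supremum of `R(K,K')` over all overlapping pairs of sets congruent to `T`. -/
noncomputable def M (T : Set E) : ℝ≥0∞ :=
  ⨆ (K : Set E) (K' : Set E) (_ : Cong T K ∧ Cong T K' ∧ Overlap K K'), R K K'

/-- The smallest angle of the triangle `ABC`. -/
noncomputable def minAngle (A B C : E) : ℝ := min (∠ B A C) (min (∠ A B C) (∠ A C B))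

noncomputable def pt (a b : ℝ) : E := WithLp.toLp 2 ![a, b]

@[simp] lemma pt0 (a b : ℝ) : pt a b 0 = a := rfl
@[simp] lemma pt1 (a b : ℝ) : pt a b 1 = b := rfl

lemma ext2 {p q : E} (h0 : p 0 = q 0) (h1 : p 1 = q 1) : p = q := by
  ext i; fin_cases i
  · exact h0
  · exact h1

lemma dist_eq (p q : E) : dist p q = Real.sqrt ((p 0 - q 0) ^ 2 + (p 1 - q 1) ^ 2) := by
  rw [EuclideanSpace.dist_eq, Fin.sum_univ_two]; simp [Real.dist_eq, sq_abs]

lemma dist_of {p q : E} {d : ℝ} (hd : 0 ≤ d) (h : (p 0 - q 0) ^ 2 + (p 1 - q 1) ^ 2 = d ^ 2) :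
    dist p q = d := by rw [dist_eq, h, Real.sqrt_sq hd]

def T0 : Set E := {p | 0 ≤ p 1 ∧ 0 ≤ 3 * p 0 - 4 * p 1 ∧ 0 ≤ 24 - 3 * p 0 - 4 * p 1}

def K1 : Set E := {p | 0 ≤ p 1 - 1 / 10 ∧ 0 ≤ 3 * p 0 - 4 * p 1 - 1 / 2 ∧
  0 ≤ 253 / 2 - 24 * p 0 + 7 * p 1}

lemma hull : convexHull ℝ ({pt 0 0, pt 8 0, pt 4 3} : Set E) = T0 := by
  apply Set.Subset.antisymm
  · apply convexHull_min
    · intro p hp
      simp only [Set.mem_insert_iff, Set.mem_singleton_iff] at hp
      rcases hp with rfl | rfl | rfl <;> simp [T0] <;> norm_num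
    · intro p hp q hq a b ha hb hab
      obtain ⟨p1, p2, p3⟩ := hp
      obtain ⟨q1, q2, q3⟩ := hq
      have e0 : (a • p + b • q) 0 = a * p 0 + b * q 0 := by simp
      have e1 : (a • p + b • q) 1 = a * p 1 + b * q 1 := by simp
      simp only [T0, Set.mem_setOf_eq, e0, e1]
      have hb' : b = 1 - a := by linarith
      refine ⟨by positivity, ?_, ?_⟩
      · nlinarith [mul_nonneg ha p2, mul_nonneg hb q2]
      · nlinarith [mul_nonneg ha p3, mul_nonneg hb q3]
  · intro p ⟨p1, p2, p3⟩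
    have hc := convex_convexHull ℝ ({pt 0 0, pt 8 0, pt 4 3} : Set E)
    have hA : pt 0 0 ∈ convexHull ℝ ({pt 0 0, pt 8 0, pt 4 3} : Set E) :=
      subset_convexHull _ _ (by simp)
    have hB : pt 8 0 ∈ convexHull ℝ ({pt 0 0, pt 8 0, pt 4 3} : Set E) :=
      subset_convexHull _ _ (by simp)
    have hC : pt 4 3 ∈ convexHull ℝ ({pt 0 0, pt 8 0, pt 4 3} : Set E) :=
      subset_convexHull _ _ (by simp)
    have := hc.sum_mem (t := Finset.univ)
      (w := ![(24 - 3 * p 0 - 4 * p 1) / 24, (3 * p 0 - 4 * p 1) / 24, p 1 / 3])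
      (z := ![pt 0 0, pt 8 0, pt 4 3])
      (by intro i _; fin_cases i <;> simp <;> positivity)
      (by simp [Fin.sum_univ_three]; ring)
      (by intro i _; fin_cases i <;> simpa)
    have e : p = ∑ i, (![(24 - 3 * p 0 - 4 * p 1) / 24, (3 * p 0 - 4 * p 1) / 24, p 1 / 3] i) •
        (![pt 0 0, pt 8 0, pt 4 3] i) := by
      apply ext2 <;> simp [Fin.sum_univ_three] <;> ring
    rw [e]; exact this

noncomputable def g (p : E) : E :=
  pt (-4 / 5 * p 0 + 3 / 5 * p 1 + 67 / 10) (-3 / 5 * p 0 - 4 / 5 * p 1 + 49 / 10)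

lemma g_iso : Isometry g := by
  apply Isometry.of_dist_eq
  intro p q
  rw [dist_eq, dist_eq]; congr 1; simp only [g, pt0, pt1]; ring

lemma g_img : K1 = g '' T0 := by
  ext p
  constructor
  · rintro ⟨p1, p2, p3⟩
    refine ⟨pt (-4 / 5 * (p 0 - 67 / 10) - 3 / 5 * (p 1 - 49 / 10))
      (3 / 5 * (p 0 - 67 / 10) - 4 / 5 * (p 1 - 49 / 10)), ?_, ?_⟩
    · simp only [T0, Set.mem_setOf_eq, pt0, pt1]
      refine ⟨by linarith, by linarith, by linarith⟩
    · apply ext2 <;> simp only [g, pt0, pt1] <;> ring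
  · rintro ⟨q, ⟨q1, q2, q3⟩, rfl⟩
    simp only [K1, g, Set.mem_setOf_eq, pt0, pt1]
    refine ⟨by linarith, by linarith, by linarith⟩

lemma cl3 {f g h : E → ℝ} (hf : Continuous f) (hg : Continuous g) (hh : Continuous h) :
    IsClosed {p | 0 ≤ f p ∧ 0 ≤ g p ∧ 0 ≤ h p} :=
  (isClosed_le continuous_const hf).inter
    ((isClosed_le continuous_const hg).inter (isClosed_le continuous_const hh))

lemma int3 {f g h : E → ℝ} (hf : Continuous f) (hg : Continuous g) (hh : Continuous h) {p : E}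
    (h1 : 0 < f p) (h2 : 0 < g p) (h3 : 0 < h p) :
    p ∈ interior {p | 0 ≤ f p ∧ 0 ≤ g p ∧ 0 ≤ h p} := by
  have ho : IsOpen {p : E | 0 < f p ∧ 0 < g p ∧ 0 < h p} :=
    (isOpen_lt continuous_const hf).inter
      ((isOpen_lt continuous_const hg).inter (isOpen_lt continuous_const hh))
  have hs : {p : E | 0 < f p ∧ 0 < g p ∧ 0 < h p} ⊆ {p | 0 ≤ f p ∧ 0 ≤ g p ∧ 0 ≤ h p} :=
    fun q hq => ⟨hq.1.le, hq.2.1.le, hq.2.2.le⟩
  exact interior_maximal hs ho ⟨h1, h2, h3⟩

lemma T0_closed : IsClosed T0 :=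
  cl3 (f := fun p => p 1) (g := fun p => 3 * p 0 - 4 * p 1) (h := fun p => 24 - 3 * p 0 - 4 * p 1)
    (by fun_prop) (by fun_prop) (by fun_prop)

lemma K1_closed : IsClosed K1 :=
  cl3 (f := fun p => p 1 - 1 / 10) (g := fun p => 3 * p 0 - 4 * p 1 - 1 / 2)
    (h := fun p => 253 / 2 - 24 * p 0 + 7 * p 1) (by fun_prop) (by fun_prop) (by fun_prop)

lemma T0_int {p : E} (h1 : 0 < p 1) (h2 : 0 < 3 * p 0 - 4 * p 1)
    (h3 : 0 < 24 - 3 * p 0 - 4 * p 1) : p ∈ interior T0 :=
  int3 (f := fun p => p 1) (g := fun p => 3 * p 0 - 4 * p 1)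
    (h := fun p => 24 - 3 * p 0 - 4 * p 1) (by fun_prop) (by fun_prop) (by fun_prop) h1 h2 h3

lemma K1_int {p : E} (h1 : 0 < p 1 - 1 / 10) (h2 : 0 < 3 * p 0 - 4 * p 1 - 1 / 2)
    (h3 : 0 < 253 / 2 - 24 * p 0 + 7 * p 1) : p ∈ interior K1 :=
  int3 (f := fun p => p 1 - 1 / 10) (g := fun p => 3 * p 0 - 4 * p 1 - 1 / 2)
    (h := fun p => 253 / 2 - 24 * p 0 + 7 * p 1) (by fun_prop) (by fun_prop) (by fun_prop) h1 h2 h3

lemma not_int {p : E} (h : p 1 - 1 / 10 = 0 ∨ 3 * p 0 - 4 * p 1 - 1 / 2 = 0) :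
    p ∉ interior K1 := by
  intro hp
  obtain ⟨e, he, hb⟩ := Metric.mem_nhds_iff.1 (mem_interior_iff_mem_nhds.1 hp)
  rcases h with h | h
  · have : pt (p 0) (p 1 - e / 2) ∈ K1 := by
      apply hb
      rw [Metric.mem_ball, dist_of (d := e / 2) (by linarith) (by simp)]
      linarith
    have := this.1
    simp only [pt1] at this
    linarith
  · have : pt (p 0) (p 1 + e / 2) ∈ K1 := by
      apply hb
      rw [Metric.mem_ball, dist_of (d := e / 2) (by linarith) (by simp)]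
      linarith
    have := this.2.1
    simp only [pt0, pt1] at this
    linarith

lemma seg {a b c d : ℝ} {p : E} : p ∈ segment ℝ (pt a b) (pt c d) ↔
    ∃ t : ℝ, 0 ≤ t ∧ t ≤ 1 ∧ p 0 = a + t * (c - a) ∧ p 1 = b + t * (d - b) := by
  constructor
  · rintro ⟨x, y, hx, hy, hxy, rfl⟩
    have : x = 1 - y := by linarith
    subst this
    refine ⟨y, hy, by linarith, ?_, ?_⟩ <;> simp <;> ring
  · rintro ⟨t, h0, h1, e0, e1⟩
    refine ⟨1 - t, t, by linarith, h0, by ring, ?_⟩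
    apply ext2 <;> simp [e0, e1] <;> ring

lemma seg_closed (p q : E) : IsClosed (segment ℝ p q) := by
  rw [segment_eq_image_lineMap]
  exact (isCompact_Icc.image AffineMap.lineMap_continuous).isClosed

lemma len (p q : E) (d : ℝ) (h : dist p q = d) : μH[1] (segment ℝ p q) = ENNReal.ofReal d := by
  rw [hausdorffMeasure_segment, edist_dist, h]

lemma num : ENNReal.ofReal 9 ≤ μH[1] (frontier K1 ∩ T0) := by
  have h1 := len (pt (3 / 10) (1 / 10)) (pt (53 / 10) (1 / 10)) 5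
    (dist_of (by norm_num) (by simp only [pt0, pt1]; norm_num))
  have h2 := len (pt (7 / 10) (4 / 10)) (pt (39 / 10) (28 / 10)) 4
    (dist_of (by norm_num) (by simp only [pt0, pt1]; norm_num))
  have hd : Disjoint (segment ℝ (pt (3 / 10) (1 / 10)) (pt (53 / 10) (1 / 10)))
      (segment ℝ (pt (7 / 10) (4 / 10)) (pt (39 / 10) (28 / 10))) := by
    rw [Set.disjoint_left]
    intro p hp hq
    obtain ⟨t, t0, t1, a0, a1⟩ := seg.1 hp
    obtain ⟨s, s0, s1, b0, b1⟩ := seg.1 hq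
    linarith
  have hu := measure_union (μ := (μH[1] : Measure E)) hd (seg_closed _ _).measurableSet
  rw [h1, h2, ← ENNReal.ofReal_add (by norm_num) (by norm_num)] at hu
  rw [show (9 : ℝ) = 5 + 4 by norm_num, ← hu]
  apply measure_mono
  rw [K1_closed.frontier_eq]
  rintro p (hp | hp)
  · obtain ⟨t, t0, t1, a0, a1⟩ := seg.1 hp
    exact ⟨⟨⟨by linarith, by linarith, by linarith⟩, not_int (Or.inl (by linarith))⟩,
      by linarith, by linarith, by linarith⟩
  · obtain ⟨t, t0, t1, a0, a1⟩ := seg.1 hp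
    exact ⟨⟨⟨by linarith, by linarith, by linarith⟩, not_int (Or.inr (by linarith))⟩,
      by linarith, by linarith, by linarith⟩

lemma den : μH[1] (frontier T0 ∩ K1) ≤ ENNReal.ofReal (5 / 2) := by
  rw [← len (pt 4 3) (pt 6 (3 / 2)) (5 / 2)
    (dist_of (by norm_num) (by simp only [pt0, pt1]; norm_num))]
  apply measure_mono
  rw [T0_closed.frontier_eq]
  rintro p ⟨⟨⟨p1, p2, p3⟩, hn⟩, q1, q2, q3⟩
  have h3 : 24 - 3 * p 0 - 4 * p 1 = 0 := by
    by_contra hne
    exact hn (T0_int (by linarith) (by linarith) (lt_of_le_of_ne p3 (Ne.symm hne)))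
  exact seg.2 ⟨(p 0 - 4) / 2, by linarith, by linarith, by ring, by linarith⟩

lemma ratio : ENNReal.ofReal (18 / 5) ≤ R K1 T0 := by
  have : ENNReal.ofReal (18 / 5) = ENNReal.ofReal 9 / ENNReal.ofReal (5 / 2) := by
    rw [← ENNReal.ofReal_div_of_pos (by norm_num)]; norm_num
  rw [this]
  exact ENNReal.div_le_div num den

lemma M_ge : ENNReal.ofReal (18 / 5) ≤ M T0 := by
  refine ratio.trans ?_
  have h : Cong T0 K1 ∧ Cong T0 T0 ∧ Overlap K1 T0 := by
    refine ⟨⟨g, g_iso, g_img⟩, ⟨id, isometry_id, by simp⟩, ⟨pt 3 1, ?_, ?_⟩, ?_⟩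
    · apply K1_int <;> simp only [pt0, pt1] <;> norm_num
    · apply T0_int <;> simp only [pt0, pt1] <;> norm_num
    · intro h
      have : pt 0 0 ∈ K1 := by rw [h]; simp [T0]
      have := this.1
      simp only [pt1] at this
      norm_num at this
  exact le_iSup₂_of_le K1 T0 (le_iSup_of_le h le_rfl)

lemma ang (p q r : E) (a b c : ℝ) (ha : dist p q = a) (hb : dist r q = b)
    (hc : (p 0 - q 0) * (r 0 - q 0) + (p 1 - q 1) * (r 1 - q 1) = c) :
    ∠ p q r = Real.arccos (c / (a * b)) := by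
  rw [angle, InnerProductGeometry.angle, ← dist_eq_norm_vsub, ← dist_eq_norm_vsub, ha, hb, ← hc]
  simp [PiLp.inner_apply, Fin.sum_univ_two, mul_comm]

lemma minA : minAngle (pt 0 0) (pt 8 0) (pt 4 3) = Real.arccos (4 / 5) := by
  have h1 := ang (pt 8 0) (pt 0 0) (pt 4 3) 8 5 32
    (dist_of (by norm_num) (by simp only [pt0, pt1]; norm_num))
    (dist_of (by norm_num) (by simp only [pt0, pt1]; norm_num))
    (by simp only [pt0, pt1]; norm_num)
  have h2 := ang (pt 0 0) (pt 8 0) (pt 4 3) 8 5 32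
    (dist_of (by norm_num) (by simp only [pt0, pt1]; norm_num))
    (dist_of (by norm_num) (by simp only [pt0, pt1]; norm_num))
    (by simp only [pt0, pt1]; norm_num)
  have h3 := ang (pt 0 0) (pt 4 3) (pt 8 0) 5 5 (-7)
    (dist_of (by norm_num) (by simp only [pt0, pt1]; norm_num))
    (dist_of (by norm_num) (by simp only [pt0, pt1]; norm_num))
    (by simp only [pt0, pt1]; norm_num)
  rw [minAngle, h1, h2, h3, show (32 : ℝ) / (8 * 5) = 4 / 5 by norm_num]
  have : Real.arccos (4 / 5) ≤ Real.arccos (-7 / (5 * 5)) :=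
    Real.arccos_le_arccos (by norm_num)
  rw [min_eq_left this, min_self]

lemma csc_lt : 1 / Real.sin (Real.arccos (4 / 5) / 2) < 18 / 5 := by
  set θ := Real.arccos (4 / 5) with hθ
  have hc : Real.cos θ = 4 / 5 := Real.cos_arccos (by norm_num) (by norm_num)
  have h0 : 0 ≤ Real.sin (θ / 2) :=
    Real.sin_nonneg_of_nonneg_of_le_pi (by have := Real.arccos_nonneg (4 / 5); linarith)
      (by have := Real.arccos_le_pi (4 / 5); have := Real.pi_pos; linarith)
  have h2 : Real.cos (2 * (θ / 2)) = 4 / 5 := by rw [show 2 * (θ / 2) = θ by ring, hc]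
  rw [Real.cos_two_mul, Real.cos_sq'] at h2
  have h3 : 5 / 18 < Real.sin (θ / 2) := by
    by_contra hn
    push Not at hn
    nlinarith
  rw [div_lt_iff₀ (by linarith)]
  linarith

theorem result : ∃ A B C : E, AffineIndependent ℝ ![A, B, C] ∧ dist A C = dist B C ∧
    ENNReal.ofReal (1 / Real.sin (minAngle A B C / 2)) < M (convexHull ℝ {A, B, C}) := by
  refine ⟨pt 0 0, pt 8 0, pt 4 3, ?_, ?_, ?_⟩
  · rw [affineIndependent_iff_not_collinear_set, collinear_iff_of_mem (p₀ := pt 0 0) (by simp)]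
    rintro ⟨v, hv⟩
    obtain ⟨r, hr⟩ := hv (pt 8 0) (by simp)
    obtain ⟨s, hs⟩ := hv (pt 4 3) (by simp)
    have a0 := congrArg (fun p : E => p 0) hr
    have a1 := congrArg (fun p : E => p 1) hr
    have b1 := congrArg (fun p : E => p 1) hs
    simp at a0 a1 b1
    rcases a1 with h | h
    · rw [h] at a0; norm_num at a0
    · rw [h] at b1; norm_num at b1
  · rw [dist_of (d := 5) (by norm_num) (by simp only [pt0, pt1]; norm_num),
      dist_of (d := 5) (by norm_num) (by simp only [pt0, pt1]; norm_num)]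
  · rw [hull, minA]
    exact lt_of_lt_of_le ((ENNReal.ofReal_lt_ofReal_iff (by norm_num)).2 csc_lt) M_ge

end Pool.Agent.Results.MP_071e18_gt.Counter
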